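import Mathlib

set_option autoImplicit false

namespace Pool.Agent.H.MP_94dfa5_al

open Filter Topology

/-- normalised Hamming distance of two permutations of a finite set -/
noncomputable def dH {X : Type} [Fintype X] [DecidableEq X] (σ τ : Equiv.Perm X) : ℝ :=
  ((Finset.univ.filter fun x => σ x ≠ τ x).card : ℝ) / (Fintype.card X : ℝ)

section Ham
variable {X : Type} [Fintype X] [DecidableEq X]

lemma dH_eq (σ τ : Equiv.Perm X) :
    dH σ τ = (hammingDist (σ : X → X) (τ : X → X) : ℝ) / (Fintype.card X : ℝ) := rfl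

lemma dH_nonneg (σ τ : Equiv.Perm X) : 0 ≤ dH σ τ := by unfold dH; positivity

lemma dH_self (σ : Equiv.Perm X) : dH σ σ = 0 := by simp [dH]

lemma dH_comm (σ τ : Equiv.Perm X) : dH σ τ = dH τ σ := by
  rw [dH_eq, dH_eq, hammingDist_comm]

lemma dH_tri (σ τ ρ : Equiv.Perm X) : dH σ ρ ≤ dH σ τ + dH τ ρ := by
  rw [dH_eq, dH_eq, dH_eq, ← add_div]
  gcongr
  exact_mod_cast hammingDist_triangle _ _ _

lemma dH_left (ρ σ τ : Equiv.Perm X) : dH (ρ * σ) (ρ * τ) = dH σ τ := by
  simp [dH]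

lemma dH_right (ρ σ τ : Equiv.Perm X) : dH (σ * ρ) (τ * ρ) = dH σ τ := by
  unfold dH
  congr 2
  exact Finset.card_equiv ρ (fun i => by
    rw [Finset.mem_filter, Finset.mem_filter]; simp)

lemma dH_mul (a b c d : Equiv.Perm X) : dH (a * b) (c * d) ≤ dH a c + dH b d := by
  have := dH_tri (a * b) (c * b) (c * d)
  rwa [dH_left, dH_right] at this

lemma dH_inv (a b : Equiv.Perm X) : dH a⁻¹ b⁻¹ = dH a b := by
  rw [← dH_left a, ← dH_right b, dH_comm]; simp

lemma dH_comm_le (a b : Equiv.Perm X) : dH (a * b * a⁻¹ * b⁻¹) 1 ≤ 2 * dH a 1 := by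
  have h1 := dH_mul a (b * a⁻¹ * b⁻¹) 1 (b * 1 * b⁻¹)
  have h2 := dH_inv a 1
  rw [dH_right, dH_left] at h1
  simp only [inv_one, mul_one, mul_inv_cancel, ← mul_assoc] at h1 h2
  linarith

end Ham

/-- biadditive maps -/
structure Bi (V Z : Type) [AddCommGroup V] [AddCommGroup Z] where
  B : V → V → Z
  l : ∀ a b c, B (a + b) c = B a c + B b c
  r : ∀ a b c, B a (b + c) = B a b + B a c

section Hs
variable {V Z : Type} [AddCommGroup V] [AddCommGroup Z]

lemma Bi.zl (β : Bi V Z) (a : V) : β.B 0 a = 0 := by simpa using β.l 0 0 a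
lemma Bi.zr (β : Bi V Z) (a : V) : β.B a 0 = 0 := by simpa using β.r a 0 0
lemma Bi.nl (β : Bi V Z) (a b : V) : β.B (-a) b = -β.B a b := by
  have := β.l (-a) a b
  rw [neg_add_cancel, β.zl] at this
  exact eq_neg_of_add_eq_zero_left this.symm

/-- central extension given by a biadditive cocycle -/
@[ext] structure Hs (β : Bi V Z) where
  v : V
  z : Z

variable {β : Bi V Z}

instance : Mul (Hs β) := ⟨fun a b => ⟨a.v + b.v, a.z + b.z + β.B a.v b.v⟩⟩
instance : One (Hs β) := ⟨⟨0, 0⟩⟩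
instance : Inv (Hs β) := ⟨fun a => ⟨-a.v, -a.z + β.B a.v a.v⟩⟩
@[simp] lemma mul_v (a b : Hs β) : (a * b).v = a.v + b.v := rfl
@[simp] lemma mul_z (a b : Hs β) : (a * b).z = a.z + b.z + β.B a.v b.v := rfl
@[simp] lemma one_v : (1 : Hs β).v = 0 := rfl
@[simp] lemma one_z : (1 : Hs β).z = 0 := rfl
@[simp] lemma inv_v (a : Hs β) : a⁻¹.v = -a.v := rfl
@[simp] lemma inv_z (a : Hs β) : a⁻¹.z = -a.z + β.B a.v a.v := rfl

instance : Group (Hs β) where
  mul_assoc a b c := by
    ext
    · simp [add_assoc]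
    · simp only [mul_z, mul_v, β.l, β.r]; abel
  one_mul a := by ext <;> simp [β.zl]
  mul_one a := by ext <;> simp [β.zr]
  inv_mul_cancel a := by ext <;> simp [β.nl]

lemma toProd_inj : Function.Injective (fun a : Hs β => (a.v, a.z)) := fun a b h => by
  simp only [Prod.mk.injEq] at h; exact Hs.ext h.1 h.2

instance [Finite V] [Finite Z] : Finite (Hs β) := Finite.of_injective _ toProd_inj
instance [Countable V] [Countable Z] : Countable (Hs β) := toProd_inj.countable

end Hs

abbrev k := ZMod 2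
abbrev W := ℕ →₀ k

noncomputable def Sm : W →ₗ[k] k := Finsupp.linearCombination k (fun _ => 1)


lemma fin_stable {F X : Type} [Group F] [Fintype F] [Fintype X] [DecidableEq X]
    (f : F → Equiv.Perm X) (c : ℝ)
    (hf : ∀ g h, ((Finset.univ.filter fun i => f (g * h) i ≠ (f g * f h) i).card : ℝ) ≤ c) :
    ∃ ρ : F →* Equiv.Perm X, ∀ g, ((Finset.univ.filter fun i => f g i ≠ ρ g i).card : ℝ) ≤
      (Fintype.card F : ℝ) ^ 3 * c := by
  classical
  let Y : X → Prop := fun i => ∀ g h, f (g * h) i = f g (f h i)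
  let Y' : X → Prop := fun i => ∀ u, Y (f u i)
  have h1 : ∀ i, Y' i → f 1 i = i := fun i hi => by
    have := hi 1 1 1
    rw [mul_one] at this
    have h2 := (f 1).injective this
    exact ((f 1).injective h2).symm
  have hY : ∀ i, Y' i → Y i := fun i hi => by have := hi 1; rwa [h1 i hi] at this
  have h2 : ∀ g i, Y' i → Y' (f g i) := fun g i hi u => by
    rw [← hY i hi]; exact hi _
  let m : MulAction F X :=
    { smul := fun g i => if Y' i then f g i else i
      one_smul := fun i => by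
        change (if Y' i then f 1 i else i) = i
        split_ifs with h
        · exact h1 i h
        · rfl
      mul_smul := fun a b i => by
        change (if Y' i then f (a * b) i else i) =
          (if Y' (if Y' i then f b i else i) then f a (if Y' i then f b i else i)
            else (if Y' i then f b i else i))
        by_cases h : Y' i
        · simp only [if_pos h, if_pos (h2 b i h)]
          exact hY i h a b
        · simp only [if_neg h] }
  refine ⟨MulAction.toPermHom F X, fun g => ?_⟩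
  have h3 : (Finset.univ.filter fun i => f g i ≠ MulAction.toPermHom F X g i) ⊆
      (Finset.univ : Finset (F × F × F)).biUnion fun p =>
        Finset.univ.filter fun i => f (p.2.1 * p.2.2) (f p.1 i) ≠ (f p.2.1 * f p.2.2) (f p.1 i) := by
    intro i hi
    have h4 : ¬ Y' i := fun h => (Finset.mem_filter.1 hi).2 (if_pos h).symm
    simp only [Y', Y, not_forall] at h4
    obtain ⟨u, a, b, h5⟩ := h4
    exact Finset.mem_biUnion.2 ⟨(u, a, b), Finset.mem_univ _, Finset.mem_filter.2
      ⟨Finset.mem_univ _, h5⟩⟩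
  have h4 := (Finset.card_le_card h3).trans Finset.card_biUnion_le
  have h5 : ∀ p : F × F × F, ((Finset.univ.filter fun i =>
      f (p.2.1 * p.2.2) (f p.1 i) ≠ (f p.2.1 * f p.2.2) (f p.1 i)).card : ℝ) ≤ c := fun p => by
    refine le_of_eq_of_le ?_ (hf p.2.1 p.2.2)
    congr 1
    exact Finset.card_equiv (f p.1) (fun i => by
      rw [Finset.mem_filter, Finset.mem_filter]; simp)
  calc _ ≤ ((∑ p : F × F × F, (Finset.univ.filter fun i =>
        f (p.2.1 * p.2.2) (f p.1 i) ≠ (f p.2.1 * f p.2.2) (f p.1 i)).card : ℕ) : ℝ) := by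
        exact_mod_cast h4
    _ ≤ ∑ _p : F × F × F, c := by
        push_cast; exact Finset.sum_le_sum fun p _ => h5 p
    _ = _ := by
        simp only [Finset.sum_const, Finset.card_univ, Fintype.card_prod, nsmul_eq_mul]
        push_cast; ring

noncomputable def βG : Bi (W × W) (k × W) where
  B a b := (0, a.1 * b.2)
  l a b c := by ext <;> simp; ring
  r a b c := by ext <;> simp; ring

abbrev G := Hs βG

lemma GB (a b : W × W) : βG.B a b = (0, a.1 * b.2) := rfl

def βE (n : ℕ) : Bi ((Fin n → k) × (Fin n → k)) k where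
  B a b := ∑ i, a.1 i * b.2 i
  l a b c := by simp [add_mul, Finset.sum_add_distrib]
  r a b c := by simp [mul_add, Finset.sum_add_distrib]

lemma EB (n : ℕ) (a b : (Fin n → k) × (Fin n → k)) : (βE n).B a b = ∑ i, a.1 i * b.2 i := rfl

/-- elements supported below `n` -/
def Gn (n : ℕ) : Subgroup G where
  carrier := {x | ∀ i, n ≤ i → x.v.1 i = 0 ∧ x.v.2 i = 0 ∧ x.z.2 i = 0}
  one_mem' := by simp
  mul_mem' := by
    intro a b ha hb i hi
    obtain ⟨h1, h2, h3⟩ := ha i hi
    obtain ⟨h4, h5, h6⟩ := hb i hi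
    simp [GB, h1, h2, h3, h4, h5, h6]
  inv_mem' := by
    intro a ha i hi
    obtain ⟨h1, h2, h3⟩ := ha i hi
    simp [GB, h1, h2, h3]

lemma W_ev (u : W) : ∀ᶠ n in atTop, ∀ i, n ≤ i → u i = 0 := by
  refine eventually_atTop.2 ⟨u.support.sup id + 1, fun n hn i hi => ?_⟩
  by_contra h
  have := Finset.le_sup (f := id) (Finsupp.mem_support_iff.2 h)
  simp only [id] at this
  omega

lemma Gn_ev (x : G) : ∀ᶠ n in atTop, x ∈ Gn n := by
  filter_upwards [W_ev x.v.1, W_ev x.v.2, W_ev x.z.2] with n h1 h2 h3 i hi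
  exact ⟨h1 i hi, h2 i hi, h3 i hi⟩

instance (n : ℕ) : Finite (Gn n) := by
  refine Finite.of_injective (fun x : Gn n => ((fun i : Fin n => x.1.v.1 i),
    (fun i : Fin n => x.1.v.2 i), x.1.z.1, (fun i : Fin n => x.1.z.2 i))) ?_
  rintro ⟨x, hx⟩ ⟨y, hy⟩ h
  simp only [Prod.mk.injEq] at h
  have key : ∀ u w : W, (∀ i, n ≤ i → u i = 0) → (∀ i, n ≤ i → w i = 0) →
      ((fun i : Fin n => u i) = fun i : Fin n => w i) → u = w := by
    intro u w hu hw e
    ext i
    by_cases hi : i < n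
    · exact congrFun e ⟨i, hi⟩
    · rw [hu i (by omega), hw i (by omega)]
  refine Subtype.ext (Hs.ext (Prod.ext ?_ ?_) (Prod.ext h.2.2.1 ?_))
  · exact key _ _ (fun i hi => (hx i hi).1) (fun i hi => (hy i hi).1) h.1
  · exact key _ _ (fun i hi => (hx i hi).2.1) (fun i hi => (hy i hi).2.1) h.2.1
  · exact key _ _ (fun i hi => (hx i hi).2.2) (fun i hi => (hy i hi).2.2) h.2.2.2

noncomputable def rt (n : ℕ) : G →* G := MonoidHom.mk'
  (fun x => ⟨(x.v.1.filter (· < n), x.v.2.filter (· < n)), (x.z.1, x.z.2.filter (· < n))⟩)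
  (fun x y => by
    ext i
    · simp [Finsupp.filter_add]
    · simp [Finsupp.filter_add]
    · simp [GB]
    · by_cases h : i < n <;> simp [GB, Finsupp.filter_apply, h])

lemma rt_mem (n : ℕ) (x : G) : rt n x ∈ Gn n := fun i hi => by
  have : ¬ i < n := by omega
  simp [rt, Finsupp.filter_apply, this]

lemma rt_eq (n : ℕ) (x : G) (hx : x ∈ Gn n) : rt n x = x := by
  ext i <;> simp only [rt, MonoidHom.mk'_apply, Finsupp.filter_apply]
  all_goals
    split_ifs with h
    · rfl
    · first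
      | exact ((hx i (by omega)).1).symm
      | exact ((hx i (by omega)).2.1).symm
      | exact ((hx i (by omega)).2.2).symm

def Stable (K : Type) [Group K] : Prop :=
  ∀ (S : Finset K) (ε : ℝ), 0 < ε → ∃ (T : Finset K) (δ : ℝ), 0 < δ ∧
    ∀ (n : ℕ) (f : K → Equiv.Perm (Fin n)),
      (∀ g ∈ T, ∀ h ∈ T,
        ((Finset.univ.filter (fun i : Fin n => f (g * h) i ≠ (f g * f h) i)).card : ℝ)
          / (n : ℝ) < δ) →
      ∃ ρ : K →* Equiv.Perm (Fin n), ∀ g ∈ S,
        ((Finset.univ.filter (fun i : Fin n => f g i ≠ ρ g i)).card : ℝ) / (n : ℝ) < ε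

theorem G_stable : Stable G := by
  classical
  intro S ε hε
  obtain ⟨m, hm⟩ := ((eventually_all_finset S).2 fun s _ => Gn_ev s).exists
  let _ : Fintype (Gn m) := Fintype.ofFinite _
  have hN : (0 : ℝ) < (Fintype.card (Gn m) : ℝ) ^ 3 := by
    have : 0 < Fintype.card (Gn m) := Fintype.card_pos
    positivity
  refine ⟨Finset.univ.image (Gn m).subtype, ε / 2 / (Fintype.card (Gn m) : ℝ) ^ 3, by positivity,
    fun n f hf => ?_⟩
  rcases Nat.eq_zero_or_pos n with rfl | hn
  · exact ⟨1, fun g _ => by simpa using hε⟩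
  have hn' : (0 : ℝ) < n := by exact_mod_cast hn
  obtain ⟨ρ, hρ⟩ := fin_stable (fun x : Gn m => f x) (ε / 2 / (Fintype.card (Gn m) : ℝ) ^ 3 * n)
    (fun g h => ((div_lt_iff₀ hn').1 (hf g (Finset.mem_image_of_mem _ (Finset.mem_univ g)) h
      (Finset.mem_image_of_mem _ (Finset.mem_univ h)))).le)
  refine ⟨ρ.comp ((rt m).codRestrict _ (rt_mem m)), fun g hg => ?_⟩
  have e : (rt m).codRestrict _ (rt_mem m) g = ⟨g, hm g hg⟩ := Subtype.ext (rt_eq m g (hm g hg))
  rw [MonoidHom.comp_apply, e, div_lt_iff₀ hn']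
  refine (hρ ⟨g, hm g hg⟩).trans_lt ?_
  rw [← mul_assoc, mul_div_cancel₀ _ hN.ne']
  nlinarith

noncomputable def al (a : k) : G →* G := MonoidHom.mk'
  (fun x => ⟨x.v, (x.z.1 + a * Sm x.v.1, x.z.2 - a • x.v.1)⟩)
  (fun x y => by ext i <;> simp [GB] <;> ring)

lemma al_v (a : k) (x : G) : (al a x).v = x.v := rfl
lemma al_z (a : k) (x : G) : (al a x).z = (x.z.1 + a * Sm x.v.1, x.z.2 - a • x.v.1) := rfl

lemma al_add (a b : k) (x : G) : al (a + b) x = al a (al b x) := by
  ext i <;> simp [al_v, al_z] <;> ring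

lemma al_zero (x : G) : al 0 x = x := by
  ext i <;> simp [al_v, al_z]

noncomputable def φ : Multiplicative k →* MulAut G := MonoidHom.mk'
  (fun a =>
    { toFun := al a.toAdd
      invFun := al (-a.toAdd)
      left_inv := fun x => by rw [← al_add, neg_add_cancel, al_zero]
      right_inv := fun x => by rw [← al_add, add_neg_cancel, al_zero]
      map_mul' := map_mul _ })
  (fun a b => by ext1 x; exact al_add _ _ x)

lemma φ_apply (a : Multiplicative k) (x : G) : φ a x = al a.toAdd x := rfl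

abbrev K := SemidirectProduct G (Multiplicative k) φ

noncomputable def θ (n : ℕ) (x : K) : Hs (βE n) :=
  ⟨(fun i => x.left.v.1 i, fun i => x.left.v.2 i), x.left.z.1 + ∑ i : Fin n, x.left.z.2 i⟩

lemma θ_mul (n : ℕ) (x y : K) (hy : y.left ∈ Gn n) : θ n (x * y) = θ n x * θ n y := by
  have : Sm y.left.v.1 = ∑ i : Fin n, y.left.v.1 i := by
    rw [Sm, Finsupp.linearCombination_apply, Finsupp.sum_of_support_subset (s := Finset.range n),
      Finset.sum_range]
    · simp
    · intro i hi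
      by_contra h
      exact Finsupp.mem_support_iff.1 hi (hy i (by simpa using h)).1
    · simp
  ext
  · simp [θ, φ_apply, al_v]
  · simp [θ, φ_apply, al_v]
  · simp [θ, φ_apply, al_v, al_z, GB, EB, this, Finset.sum_add_distrib, Finset.mul_sum]; ring

noncomputable def hh : K := ⟨1, Multiplicative.ofAdd 1⟩
noncomputable def gg : K := SemidirectProduct.inl ⟨0, (1, 0)⟩
noncomputable def ee (i : ℕ) : K := SemidirectProduct.inl ⟨(Finsupp.single i 1, 0), 0⟩
noncomputable def ff (i : ℕ) : K := SemidirectProduct.inl ⟨(0, Finsupp.single i 1), 0⟩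

lemma rel1 (i : ℕ) : hh * ee i * hh⁻¹ * (ee i)⁻¹ * (ee i * ff i * (ee i)⁻¹ * (ff i)⁻¹) = gg := by
  have : hh * ee i * hh⁻¹ = SemidirectProduct.inl (al 1 ⟨(Finsupp.single i 1, 0), 0⟩) := by
    have h0 := SemidirectProduct.inl_aut (φ := φ) (Multiplicative.ofAdd 1)
      (⟨(Finsupp.single i 1, 0), 0⟩ : G)
    rw [map_inv] at h0
    exact h0.symm
  rw [this]
  simp only [ee, ff, gg, ← map_inv, ← map_mul]
  congr 1
  ext j <;> simp [al_v, al_z, GB, Sm, Finsupp.single_apply]
  split_ifs <;> rfl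

lemma rel2 (i j : ℕ) (h : i ≠ j) : ee j * ff i = ff i * ee j := by
  simp only [ee, ff, ← map_mul]
  congr 1
  ext l <;> simp [GB, Finsupp.single_apply]
  omega

lemma fin_rel {Q : Type} [Group Q] [Finite Q] (ρ : K →* Q) :
    ∃ u, ρ gg = ρ hh * u * (ρ hh)⁻¹ * u⁻¹ := by
  obtain ⟨i, j, hij, e⟩ := Finite.exists_ne_map_eq_of_infinite (fun i => ρ (ee i))
  refine ⟨ρ (ee i), ?_⟩
  have h1 := congrArg ρ (rel2 i j hij)
  rw [map_mul, map_mul, ← e] at h1
  rw [← rel1 i]
  simp only [map_mul, map_inv, h1]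
  group

theorem K_not : ¬ Stable K := by
  classical
  intro hs
  obtain ⟨T, δ, hδ, h⟩ := hs {hh, gg} (1 / 3) (by norm_num)
  obtain ⟨m, hm⟩ := ((eventually_all_finset T).2 fun s _ => Gn_ev s.left).exists
  let _ : Fintype (Hs (βE m)) := Fintype.ofFinite _
  let e := Fintype.equivFin (Hs (βE m))
  let L : Hs (βE m) →* Equiv.Perm (Fin (Fintype.card (Hs (βE m)))) := MonoidHom.mk'
    (fun x => e.permCongr (MulAction.toPerm x)) (fun x y => by ext i; simp [mul_assoc])
  obtain ⟨ρ, hρ⟩ := h _ (fun x => L (θ m x)) (fun g _ h hh => by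
    simp only [θ_mul m g h (hm h hh), map_mul]
    simpa using hδ)
  have h1 : dH (L (θ m hh)) (ρ hh) < 1 / 3 := by
    have := hρ hh (by simp)
    rwa [dH, Fintype.card_fin]
  have h2 : dH (L (θ m gg)) (ρ gg) < 1 / 3 := by
    have := hρ gg (by simp)
    rwa [dH, Fintype.card_fin]
  obtain ⟨u, hu⟩ := fin_rel ρ
  have e3 : θ m hh = 1 := by ext <;> simp [θ, hh]
  have e4 : dH (L (θ m gg)) 1 = 1 := by
    unfold dH
    rw [Finset.filter_true_of_mem, Finset.card_univ, div_self]
    · exact_mod_cast Fintype.card_ne_zero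
    · intro x _ hx
      have h3 : e (θ m gg * e.symm x) = x := hx
      rw [← Equiv.eq_symm_apply] at h3
      have h4 := congrArg Hs.z (mul_eq_right.1 h3)
      simp [θ, gg] at h4
  rw [e3, map_one, dH_comm] at h1
  have h5 := dH_tri (L (θ m gg)) (ρ gg) 1
  have h6 := dH_comm_le (ρ hh) u
  rw [← hu] at h6
  linarith

end Pool.Agent.H.MP_94dfa5_al
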